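import Pool.Agent.H88.CL.Basic

/-! Closing lemma, row ISB: the critical equation. -/

open Set Function Topology Metric Filter

namespace Pool.Agent.H77.CL

open Pool.Agent.H88.CL

theorem det_deriv {d : ℕ} (X : Matrix (Fin d) (Fin d) ℝ) :
    HasDerivAt (fun t : ℝ => (1 + t • X).det) X.trace 0 := by
  have h1 : (fun t : ℝ => (1 + t • X).det) = fun t => 1 + X.trace * t +
      (Matrix.det (1 + (Polynomial.X : Polynomial ℝ) • X.map Polynomial.C)).divX.divX.eval t *
        t ^ 2 := funext fun t => Matrix.det_one_add_smul t X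
  rw [h1]
  have h2 := (((hasDerivAt_id (0 : ℝ)).const_mul X.trace).const_add 1).fun_add
    (((Matrix.det (1 + (Polynomial.X : Polynomial ℝ) • X.map Polynomial.C)).divX.divX.hasDerivAt
      (0 : ℝ)).fun_mul (hasDerivAt_pow 2 (0 : ℝ)))
  simpa using h2

theorem fr_deriv {d : ℕ} (M Y : Matrix (Fin d) (Fin d) ℝ) :
    HasDerivAt (fun t : ℝ => fr (M + t • Y)) (2 * ∑ i, ∑ j, M i j * Y i j) 0 := by
  have h1 : (fun t : ℝ => fr (M + t • Y)) = fun t => ∑ i, ∑ j, (M i j + t * Y i j) ^ 2 := rfl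
  rw [h1, Finset.mul_sum]
  refine HasDerivAt.fun_sum fun i _ => ?_
  rw [Finset.mul_sum]
  refine HasDerivAt.fun_sum fun j _ => ?_
  have h2 := (((hasDerivAt_id (0 : ℝ)).mul_const (Y i j)).const_add (M i j)).fun_pow 2
  simpa [mul_assoc] using h2

theorem fr_pos {d : ℕ} (hd : 1 ≤ d) {M : Matrix (Fin d) (Fin d) ℝ} (hM : M.det ≠ 0) :
    0 < fr M := by
  have h0 : 0 ≤ fr M := Finset.sum_nonneg fun i _ => Finset.sum_nonneg fun j _ => sq_nonneg _
  refine h0.lt_of_ne' fun h => hM ?_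
  have h1 : M = 0 := by
    ext i j
    have h2 := (Finset.sum_eq_zero_iff_of_nonneg (fun i _ =>
      Finset.sum_nonneg fun j _ => sq_nonneg _)).1 h i (Finset.mem_univ i)
    have h3 := (Finset.sum_eq_zero_iff_of_nonneg (fun j _ => sq_nonneg _)).1 h2 j
      (Finset.mem_univ j)
    exact pow_eq_zero_iff (two_ne_zero) |>.1 h3
  have : Nonempty (Fin d) := ⟨⟨0, hd⟩⟩
  rw [h1, Matrix.det_zero]

theorem isb_crit {d : ℕ} (hd : 1 ≤ d) {N : ℕ}
    (B : Fin N → Matrix (Fin d) (Fin d) ℝ) (hB : ∀ l, (B l).det ≠ 0)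
    (Q : Matrix (Fin d) (Fin d) ℝ) (hQ : Q.det ≠ 0)
    (h : ∀ R : Matrix (Fin d) (Fin d) ℝ,
      R.det ^ (2 * N) * ∏ l, fr (B l * Q) ^ d ≤ Q.det ^ (2 * N) * ∏ l, fr (B l * R) ^ d)
    (X : Matrix (Fin d) (Fin d) ℝ) :
    ∑ l, (fr (B l * Q))⁻¹ * ∑ i, ∑ j, (B l * Q) i j * (B l * Q * X) i j =
      (N : ℝ) / d * X.trace := by
  have hd0 : (d : ℝ) ≠ 0 := by
    have : 0 < d := hd
    positivity
  have hfr : ∀ l, 0 < fr (B l * Q) := fun l => fr_pos hd (by
    rw [Matrix.det_mul]; exact mul_ne_zero (hB l) hQ)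
  set P0 : ℝ := ∏ l, fr (B l * Q) ^ d with hP0
  have hP0p : 0 < P0 := Finset.prod_pos fun l _ => pow_pos (hfr l) d
  have hdQ : 0 < Q.det ^ (2 * N) := by
    rw [pow_mul]
    exact pow_pos (by positivity) N
  -- the inequality
  have hineq : ∀ t : ℝ, (1 + t • X).det ^ (2 * N) * P0 ≤
      ∏ l, fr (B l * Q + t • (B l * Q * X)) ^ d := by
    intro t
    have h1 := h (Q * (1 + t • X))
    have h2 : ∀ l, B l * (Q * (1 + t • X)) = B l * Q + t • (B l * Q * X) := by
      intro l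
      rw [← Matrix.mul_assoc, Matrix.mul_add, Matrix.mul_one, Matrix.mul_smul]
    simp only [h2] at h1
    rw [Matrix.det_mul, mul_pow, mul_assoc] at h1
    exact le_of_mul_le_mul_left h1 hdQ
  -- derivatives
  set D : Fin N → ℝ := fun l => ∑ i, ∑ j, (B l * Q) i j * (B l * Q * X) i j with hD
  have hg : HasDerivAt (fun t : ℝ => ∏ l, fr (B l * Q + t • (B l * Q * X)) ^ d)
      (∑ l, (∏ k ∈ Finset.univ.erase l, fr (B k * Q) ^ d) •
        (d * fr (B l * Q) ^ (d - 1) * (2 * D l))) 0 := by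
    have h1 := HasDerivAt.fun_finsetProd (u := Finset.univ)
      (f := fun (l : Fin N) (t : ℝ) => fr (B l * Q + t • (B l * Q * X)) ^ d) (x := (0 : ℝ))
      (f' := fun l => d * fr (B l * Q) ^ (d - 1) * (2 * D l))
      (fun l _ => by
        have h2 := (fr_deriv (B l * Q) (B l * Q * X)).fun_pow d
        simpa using h2)
    simpa using h1
  have hf : HasDerivAt (fun t : ℝ => (1 + t • X).det ^ (2 * N) * P0)
      (2 * N * X.trace * P0) 0 := by
    have h1 := ((det_deriv X).fun_pow (2 * N)).mul_const P0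
    simpa using h1
  have hmin : IsLocalMin (fun t : ℝ => ∏ l, fr (B l * Q + t • (B l * Q * X)) ^ d -
      (1 + t • X).det ^ (2 * N) * P0) 0 := by
    refine Filter.Eventually.of_forall fun t => ?_
    have h1 := hineq t
    simp only [zero_smul, add_zero, Matrix.det_one, one_pow, one_mul, ← hP0, sub_self]
    linarith
  have hz := hmin.hasDerivAt_eq_zero (hg.fun_sub hf)
  have hterm : ∀ l, (∏ k ∈ Finset.univ.erase l, fr (B k * Q) ^ d) •
      (d * fr (B l * Q) ^ (d - 1) * (2 * D l)) = 2 * d * P0 * ((fr (B l * Q))⁻¹ * D l) := by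
    intro l
    have h1 : fr (B l * Q) ^ d * ∏ k ∈ Finset.univ.erase l, fr (B k * Q) ^ d = P0 :=
      Finset.mul_prod_erase Finset.univ (fun k => fr (B k * Q) ^ d) (Finset.mem_univ l)
    have h2 : fr (B l * Q) ^ d = fr (B l * Q) * fr (B l * Q) ^ (d - 1) := by
      rw [← pow_succ', Nat.sub_add_cancel hd]
    rw [← h1, h2, smul_eq_mul]
    have h3 := (hfr l).ne'
    field_simp
  rw [Finset.sum_congr rfl fun l _ => hterm l, ← Finset.mul_sum] at hz
  have hz2 : P0 * (2 * (d * ∑ l, (fr (B l * Q))⁻¹ * D l - N * X.trace)) = 0 := by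
    rw [← hz]
    ring
  have hz3 : d * ∑ l, (fr (B l * Q))⁻¹ * D l - N * X.trace = 0 := by
    have := (mul_eq_zero.1 hz2).resolve_left hP0p.ne'
    linarith
  rw [div_mul_eq_mul_div, eq_div_iff hd0]
  linarith

theorem pf_ISB : T_ISB := by
  intro d hd N hN B hB Q hQ h
  ext i j
  have h1 := isb_crit hd B hB Q hQ h (Matrix.single j i 1)
  rw [Matrix.sum_apply]
  have h2 : ∀ l, ((fr (B l * Q))⁻¹ • ((B l * Q).transpose * (B l * Q))) i j =
      (fr (B l * Q))⁻¹ * ∑ a, ∑ b, (B l * Q) a b * (B l * Q * Matrix.single j i (1 : ℝ)) a b := by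
    intro l
    rw [Matrix.smul_apply, smul_eq_mul, Matrix.mul_apply]
    congr 1
    refine Finset.sum_congr rfl fun a _ => ?_
    rw [Finset.sum_eq_single i]
    · rw [Matrix.mul_single_apply_same, mul_one, Matrix.transpose_apply]
    · intro b _ hb
      rw [Matrix.mul_single_apply_of_ne _ _ _ _ _ hb, mul_zero]
    · intro hi
      exact absurd (Finset.mem_univ i) hi
  rw [Finset.sum_congr rfl fun l _ => h2 l, h1, Matrix.smul_apply, smul_eq_mul, Matrix.one_apply]
  by_cases hij : i = j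
  · subst hij
    rw [Matrix.trace_single_eq_same, if_pos rfl]
  · rw [Matrix.trace_single_eq_of_ne _ _ _ (Ne.symm hij), if_neg hij]

end Pool.Agent.H77.CL
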