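import Pool.Agent.H77.CL.ISB

/-! Closing lemma, row ISO: the isotropic position in operator form. -/

open Set Function Topology Metric Filter

namespace Pool.Agent.H77.CL

open Pool.Agent.H88.CL

/-- the operator of a matrix -/
noncomputable abbrev op (d : ℕ) :
    Matrix (Fin d) (Fin d) ℝ ≃⋆ₐ[ℝ] (E d →L[ℝ] E d) :=
  Matrix.toEuclideanCLM (n := Fin d) (𝕜 := ℝ)

theorem op_norm {d : ℕ} (M : Matrix (Fin d) (Fin d) ℝ) : ‖op d M‖ ^ 2 ≤ fr M := by
  have h0 : 0 ≤ fr M := Finset.sum_nonneg fun i _ => Finset.sum_nonneg fun j _ => sq_nonneg _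
  have h1 : ‖op d M‖ ≤ Real.sqrt (fr M) := by
    refine ContinuousLinearMap.opNorm_le_bound _ (Real.sqrt_nonneg _) fun v => ?_
    have h2 : ‖op d M v‖ ^ 2 ≤ fr M * ‖v‖ ^ 2 := by
      rw [EuclideanSpace.norm_sq_eq, EuclideanSpace.norm_sq_eq, fr, Finset.sum_mul]
      refine Finset.sum_le_sum fun i _ => ?_
      have h3 : (op d M v) i = ∑ j, M i j * v j := rfl
      rw [h3, Real.norm_eq_abs, sq_abs]
      refine (Finset.sum_mul_sq_le_sq_mul_sq _ _ _).trans (le_of_eq ?_)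
      simp only [Real.norm_eq_abs, sq_abs]
    have h4 := Real.sqrt_le_sqrt h2
    rw [Real.sqrt_sq (norm_nonneg _), Real.sqrt_mul h0, Real.sqrt_sq (norm_nonneg _)] at h4
    exact h4
  calc ‖op d M‖ ^ 2 ≤ Real.sqrt (fr M) ^ 2 := pow_le_pow_left₀ (norm_nonneg _) h1 2
    _ = fr M := Real.sq_sqrt h0

theorem op_inner {d : ℕ} (M : Matrix (Fin d) (Fin d) ℝ) (v w : E d) :
    inner ℝ (op d M v) (op d M w) = inner ℝ v (op d (M.transpose * M) w) := by
  have h1 : op d (M.transpose * M) = star (op d M) * op d M := by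
    rw [map_mul]
    congr 1
    rw [← map_star, Matrix.star_eq_conjTranspose, Matrix.conjTranspose_eq_transpose_of_trivial]
  rw [h1, ContinuousLinearMap.star_eq_adjoint]
  exact (ContinuousLinearMap.adjoint_inner_right (op d M) v (op d M w)).symm

theorem pf_ISO (h1 : T_ISA) (h2 : T_ISB) : T_ISO := by
  intro d hd N hN B B' hBB
  let Bm : Fin N → Matrix (Fin d) (Fin d) ℝ := fun l => (op d).symm (B l)
  have hdet : ∀ l, (Bm l).det ≠ 0 := by
    intro l
    have h3 : Bm l * (op d).symm (B' l) = 1 := by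
      have h4 : B l * B' l = 1 := by
        ext x : 1
        exact (hBB l l.2).2 x
      show (op d).symm (B l) * (op d).symm (B' l) = 1
      rw [← map_mul, h4, map_one]
    intro h5
    have h6 := congrArg Matrix.det h3
    rw [Matrix.det_mul, h5, zero_mul, Matrix.det_one] at h6
    exact zero_ne_one h6
  obtain ⟨Qm, hQ, hmax⟩ := h1 d hd N hN Bm hdet
  have hcrit := h2 d hd N hN Bm hdet Qm hQ hmax
  have hfr : ∀ l, 0 < fr (Bm l * Qm) := fun l => fr_pos hd (by
    rw [Matrix.det_mul]; exact mul_ne_zero (hdet l) hQ)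
  have hu : IsUnit Qm.det := isUnit_iff_ne_zero.2 hQ
  let Q : E d ≃L[ℝ] E d := ContinuousLinearEquiv.equivOfInverse (op d Qm) (op d Qm⁻¹)
    (fun x => by
      have h3 : op d Qm⁻¹ * op d Qm = 1 := by
        rw [← map_mul, Matrix.nonsing_inv_mul _ hu, map_one]
      exact congrArg (fun T : E d →L[ℝ] E d => T x) h3)
    (fun x => by
      have h3 : op d Qm * op d Qm⁻¹ = 1 := by
        rw [← map_mul, Matrix.mul_nonsing_inv _ hu, map_one]
      exact congrArg (fun T : E d →L[ℝ] E d => T x) h3)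
  have hQv : ∀ v, Q v = op d Qm v := fun v => rfl
  have hop : ∀ l : Fin N, (B l).comp (Q : E d →L[ℝ] E d) = op d (Bm l * Qm) := by
    intro l
    rw [map_mul]
    show _ = op d ((op d).symm (B l)) * op d Qm
    rw [StarAlgEquiv.apply_symm_apply]
    rfl
  refine ⟨Q, fun l => if h : l < N then (fr (Bm ⟨l, h⟩ * Qm))⁻¹ else 1, fun l hl => ?_,
    fun v w => ?_⟩
  · simp only [dif_pos hl]
    refine ⟨inv_pos.2 (hfr _), ?_⟩
    have h3 := hop ⟨l, hl⟩
    simp only at h3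
    rw [h3]
    have h4 := op_norm (Bm ⟨l, hl⟩ * Qm)
    have h5 := hfr ⟨l, hl⟩
    calc (fr (Bm ⟨l, hl⟩ * Qm))⁻¹ * ‖op d (Bm ⟨l, hl⟩ * Qm)‖ ^ 2
        ≤ (fr (Bm ⟨l, hl⟩ * Qm))⁻¹ * fr (Bm ⟨l, hl⟩ * Qm) :=
          mul_le_mul_of_nonneg_left h4 (inv_pos.2 h5).le
      _ = 1 := inv_mul_cancel₀ h5.ne'
  · rw [Finset.sum_range]
    have h3 : ∀ l : Fin N, (if h : (l : ℕ) < N then (fr (Bm ⟨l, h⟩ * Qm))⁻¹ else 1) *
        inner ℝ (B l (Q v)) (B l (Q w)) = inner ℝ v (op d ((fr (Bm l * Qm))⁻¹ •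
          ((Bm l * Qm).transpose * (Bm l * Qm))) w) := by
      intro l
      rw [dif_pos l.2, map_smul, ContinuousLinearMap.smul_apply, inner_smul_right, ← op_inner,
        ← hop l]
      rfl
    rw [Finset.sum_congr rfl fun l _ => h3 l, ← inner_sum, ← ContinuousLinearMap.sum_apply,
      ← map_sum, hcrit, map_smul, map_one, ContinuousLinearMap.smul_apply, inner_smul_right]
    rfl

end Pool.Agent.H77.CL
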